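import Pool.Agent.Lib_helper42.AP.Dom

/-! Module A: the Poisson problem with polynomial data on the unit disc. -/

namespace AP65

open Set Filter Topology Metric MvPolynomial AP

/-- evaluation of a polynomial in two variables at a point of the plane -/
noncomputable def ev (q : MvPolynomial (Fin 2) ℝ) (x : ℝ × ℝ) : ℝ :=
  MvPolynomial.eval ![x.1, x.2] q

lemma ev_add (p q : MvPolynomial (Fin 2) ℝ) (x : ℝ × ℝ) : ev (p + q) x = ev p x + ev q x := by
  simp [ev]

lemma ev_mul (p q : MvPolynomial (Fin 2) ℝ) (x : ℝ × ℝ) : ev (p * q) x = ev p x * ev q x := by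
  simp [ev]

lemma ev_zero (x : ℝ × ℝ) : ev 0 x = 0 := by simp [ev]

lemma ev_C (c : ℝ) (x : ℝ × ℝ) : ev (C c) x = c := by simp [ev]

lemma ev_X0 (x : ℝ × ℝ) : ev (X 0) x = x.1 := by simp [ev]

lemma ev_X1 (x : ℝ × ℝ) : ev (X 1) x = x.2 := by simp [ev]

lemma ev_contDiff (q : MvPolynomial (Fin 2) ℝ) {n : WithTop ℕ∞} : ContDiff ℝ n (ev q) := by
  induction q using MvPolynomial.induction_on with
  | C a =>
    have : ev (C a) = fun _ => a := by ext x; exact ev_C a x
    rw [this]; exact contDiff_const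
  | add p q hp hq =>
    have : ev (p + q) = fun x => ev p x + ev q x := by ext x; exact ev_add p q x
    rw [this]; exact hp.add hq
  | mul_X p i hp =>
    have : ev (p * X i) = fun x => ev p x * ev (X i) x := by ext x; exact ev_mul p _ x
    rw [this]
    refine hp.mul ?_
    fin_cases i
    · have : ev (X 0) = fun x => x.1 := by ext x; exact ev_X0 x
      simp only [Fin.zero_eta]
      rw [this]; exact contDiff_fst
    · have : ev (X 1) = fun x => x.2 := by ext x; exact ev_X1 x
      simp only [Fin.mk_one]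
      rw [this]; exact contDiff_snd

lemma ev_diff (q : MvPolynomial (Fin 2) ℝ) (x : ℝ × ℝ) : DifferentiableAt ℝ (ev q) x :=
  (ev_contDiff q (n := 1)).differentiable (by norm_num) x

lemma D1_ev (q : MvPolynomial (Fin 2) ℝ) (x : ℝ × ℝ) : D1 (ev q) x = ev (pderiv 0 q) x := by
  induction q using MvPolynomial.induction_on with
  | C a =>
    have : ev (C a) = fun _ => a := by ext x; exact ev_C a x
    rw [this, D1_const, pderiv_C, ev_zero]
  | add p q hp hq =>
    have : ev (p + q) = fun x => ev p x + ev q x := by ext x; exact ev_add p q x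
    rw [this, D1_add (ev_diff p x) (ev_diff q x), hp, hq, map_add, ev_add]
  | mul_X p i hp =>
    have : ev (p * X i) = fun x => ev p x * ev (X i) x := by ext x; exact ev_mul p _ x
    rw [this, D1_mul (ev_diff p x) (ev_diff _ x), hp, pderiv_mul, ev_add, ev_mul, ev_mul]
    congr 1
    congr 1
    fin_cases i
    · have : ev (X 0) = fun x => x.1 := by ext x; exact ev_X0 x
      simp only [Fin.zero_eta]
      rw [this, D1_fst, pderiv_X_self, ← C_1, ev_C]
    · have : ev (X 1) = fun x => x.2 := by ext x; exact ev_X1 x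
      simp only [Fin.mk_one]
      rw [this, D1_snd, pderiv_X_of_ne (by decide), ev_zero]

lemma D2_ev (q : MvPolynomial (Fin 2) ℝ) (x : ℝ × ℝ) : D2 (ev q) x = ev (pderiv 1 q) x := by
  induction q using MvPolynomial.induction_on with
  | C a =>
    have : ev (C a) = fun _ => a := by ext x; exact ev_C a x
    rw [this, D2_const, pderiv_C, ev_zero]
  | add p q hp hq =>
    have : ev (p + q) = fun x => ev p x + ev q x := by ext x; exact ev_add p q x
    rw [this, D2_add (ev_diff p x) (ev_diff q x), hp, hq, map_add, ev_add]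
  | mul_X p i hp =>
    have : ev (p * X i) = fun x => ev p x * ev (X i) x := by ext x; exact ev_mul p _ x
    rw [this, D2_mul (ev_diff p x) (ev_diff _ x), hp, pderiv_mul, ev_add, ev_mul, ev_mul]
    congr 1
    congr 1
    fin_cases i
    · have : ev (X 0) = fun x => x.1 := by ext x; exact ev_X0 x
      simp only [Fin.zero_eta]
      rw [this, D2_fst, pderiv_X_of_ne (by decide), ev_zero]
    · have : ev (X 1) = fun x => x.2 := by ext x; exact ev_X1 x
      simp only [Fin.mk_one]
      rw [this, D2_snd, pderiv_X_self, ← C_1, ev_C]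

lemma D1_ev' (q : MvPolynomial (Fin 2) ℝ) : D1 (ev q) = ev (pderiv 0 q) := by
  ext x; exact D1_ev q x

lemma D2_ev' (q : MvPolynomial (Fin 2) ℝ) : D2 (ev q) = ev (pderiv 1 q) := by
  ext x; exact D2_ev q x

/-- the defining polynomial of the disc -/
noncomputable def bb : MvPolynomial (Fin 2) ℝ := 1 - X 0 ^ 2 - X 1 ^ 2

lemma ev_bb (x : ℝ × ℝ) : ev bb x = 1 - x.1 ^ 2 - x.2 ^ 2 := by
  simp [ev, bb]

/-- `p ↦ Δ ((1-|x|²) p)` -/
noncomputable def lapl : MvPolynomial (Fin 2) ℝ →ₗ[ℝ] MvPolynomial (Fin 2) ℝ :=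
  (((pderiv (R := ℝ) (0 : Fin 2)).toLinearMap.comp (pderiv 0).toLinearMap) +
    ((pderiv (R := ℝ) (1 : Fin 2)).toLinearMap.comp (pderiv 1).toLinearMap)).comp
    (LinearMap.mulLeft ℝ bb)

lemma lapl_apply (p : MvPolynomial (Fin 2) ℝ) :
    lapl p = pderiv 0 (pderiv 0 (bb * p)) + pderiv 1 (pderiv 1 (bb * p)) := rfl

lemma totalDegree_pderiv_le (i : Fin 2) (p : MvPolynomial (Fin 2) ℝ) :
    (pderiv i p).totalDegree ≤ p.totalDegree - 1 := by
  rw [totalDegree, Finset.sup_le_iff]
  intro m hm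
  rw [mem_support_iff, coeff_pderiv] at hm
  have h1 : coeff (m + Finsupp.single i 1) p ≠ 0 := fun h => hm (by rw [h, zero_mul])
  have h2 := le_totalDegree (mem_support_iff.2 h1)
  rw [Finsupp.sum_add_index' (by simp) (by simp), Finsupp.sum_single_index rfl] at h2
  omega

lemma lapl_totalDegree (p : MvPolynomial (Fin 2) ℝ) (n : ℕ) (hp : p.totalDegree ≤ n) :
    (lapl p).totalDegree ≤ n := by
  have hb : bb.totalDegree ≤ 2 := by
    unfold bb
    refine (totalDegree_sub _ _).trans (max_le ((totalDegree_sub _ _).trans (max_le ?_ ?_)) ?_)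
    · rw [totalDegree_one]; norm_num
    · rw [totalDegree_X_pow]
    · rw [totalDegree_X_pow]
  have h1 : (bb * p).totalDegree ≤ n + 2 := (totalDegree_mul _ _).trans (by omega)
  rw [lapl_apply]
  refine (totalDegree_add _ _).trans (max_le ?_ ?_)
  · have := totalDegree_pderiv_le 0 (pderiv 0 (bb * p))
    have := totalDegree_pderiv_le 0 (bb * p)
    omega
  · have := totalDegree_pderiv_le 1 (pderiv 1 (bb * p))
    have := totalDegree_pderiv_le 1 (bb * p)
    omega

/-- the open unit disc -/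
def disc : Set (ℝ × ℝ) := {x | x.1 ^ 2 + x.2 ^ 2 < 1}

lemma disc_open : IsOpen disc :=
  isOpen_lt (by fun_prop) continuous_const

lemma disc_bdd : Bornology.IsBounded disc := by
  refine (Metric.isBounded_closedBall (x := (0 : ℝ × ℝ)) (r := 1)).subset ?_
  intro x hx
  have hx' : x.1 ^ 2 + x.2 ^ 2 < 1 := hx
  rw [mem_closedBall, dist_zero_right, Prod.norm_def, max_le_iff]
  constructor
  · rw [Real.norm_eq_abs]
    exact abs_le_one_iff_mul_self_le_one.2 (by nlinarith [sq_nonneg x.2])
  · rw [Real.norm_eq_abs]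
    exact abs_le_one_iff_mul_self_le_one.2 (by nlinarith [sq_nonneg x.1])

lemma disc_frontier {x : ℝ × ℝ} (hx : x ∈ frontier disc) : x.1 ^ 2 + x.2 ^ 2 = 1 := by
  have := frontier_lt_subset_eq (f := fun x : ℝ × ℝ => x.1 ^ 2 + x.2 ^ 2) (g := fun _ => (1 : ℝ))
    (by fun_prop) continuous_const hx
  exact this

lemma lapl_eq (p : MvPolynomial (Fin 2) ℝ) (x : ℝ × ℝ) :
    D1 (D1 (ev (bb * p))) x + D2 (D2 (ev (bb * p))) x = ev (lapl p) x := by
  rw [D1_ev', D1_ev', D2_ev', D2_ev', lapl_apply, ev_add]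

lemma lapl_inj (p : MvPolynomial (Fin 2) ℝ) (hp : lapl p = 0) : p = 0 := by
  have hle : ∀ s : ℝ, ∀ x ∈ closure disc, s * ev (bb * p) x ≤ 0 := by
    intro s
    have hcd : ContDiff ℝ 2 (fun x => s * ev (bb * p) x) := contDiff_const.mul (ev_contDiff _)
    refine max_principle disc_open disc_bdd hcd.continuous.continuousOn
      (fun x _ => hcd.contDiffAt) ?_ ?_
    · intro x _
      refine ⟨1, 1, one_pos, one_pos, ?_⟩
      rw [D11_const_mul s (ev_contDiff _).contDiffAt, D22_const_mul s (ev_contDiff _).contDiffAt]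
      have h := lapl_eq p x
      rw [hp, ev_zero] at h
      have : s * (D1 (D1 (ev (bb * p))) x + D2 (D2 (ev (bb * p))) x) = 0 := by rw [h, mul_zero]
      linarith
    · intro x hx
      rw [ev_mul, ev_bb]
      have := disc_frontier hx
      have h2 : 1 - x.1 ^ 2 - x.2 ^ 2 = 0 := by linarith
      rw [h2]; simp
  have hz : ∀ x ∈ disc, ev p x = 0 := by
    intro x hx
    have hx' : x.1 ^ 2 + x.2 ^ 2 < 1 := hx
    have h1 := hle 1 x (subset_closure hx)
    have h2 := hle (-1) x (subset_closure hx)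
    have h3 : ev (bb * p) x = 0 := by linarith
    rw [ev_mul, ev_bb] at h3
    rcases mul_eq_zero.1 h3 with h | h
    · exfalso; linarith
    · exact h
  refine funext_set (fun _ => Ioo (0 : ℝ) (1 / 2)) (fun _ => Ioo_infinite (by norm_num)) ?_
  intro x hx
  have h0 : x 0 ∈ Ioo (0 : ℝ) (1 / 2) := hx 0 (mem_univ _)
  have h1 : x 1 ∈ Ioo (0 : ℝ) (1 / 2) := hx 1 (mem_univ _)
  have hd : (x 0, x 1) ∈ disc := by
    change x 0 ^ 2 + x 1 ^ 2 < 1
    nlinarith [h0.1, h0.2, h1.1, h1.2]
  have h := hz _ hd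
  have hx2 : ![x 0, x 1] = x := by
    ext i; fin_cases i <;> rfl
  simp only [ev] at h
  rw [hx2] at h
  rw [h, map_zero]

/-- **Module A.** The Poisson problem with polynomial right-hand side on the unit disc has a
polynomial solution. -/
theorem poisson_poly (q : MvPolynomial (Fin 2) ℝ) :
    ∃ p : MvPolynomial (Fin 2) ℝ, ∀ x : ℝ × ℝ,
      D1 (D1 (fun y => (1 - y.1 ^ 2 - y.2 ^ 2) * ev p y)) x +
        D2 (D2 (fun y => (1 - y.1 ^ 2 - y.2 ^ 2) * ev p y)) x = ev q x := by
  set n := q.totalDegree with hn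
  let V := restrictTotalDegree (Fin 2) ℝ n
  have hmap : ∀ p ∈ V, lapl p ∈ V := by
    intro p hp
    rw [mem_restrictTotalDegree] at hp ⊢
    exact lapl_totalDegree p n hp
  let L : V →ₗ[ℝ] V := lapl.restrict hmap
  have hinj : Function.Injective L := by
    rw [injective_iff_map_eq_zero]
    intro p hp
    have h1 : lapl (p : MvPolynomial (Fin 2) ℝ) = 0 := by
      have := congrArg Subtype.val hp
      exact this
    exact Subtype.ext (lapl_inj _ h1)
  have hsurj : Function.Surjective L := LinearMap.injective_iff_surjective.1 hinj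
  have hq : q ∈ V := by rw [mem_restrictTotalDegree]
  obtain ⟨p, hp⟩ := hsurj ⟨q, hq⟩
  refine ⟨p, fun x => ?_⟩
  have h1 : lapl (p : MvPolynomial (Fin 2) ℝ) = q := congrArg Subtype.val hp
  have h2 := lapl_eq (p : MvPolynomial (Fin 2) ℝ) x
  rw [h1] at h2
  have h3 : ev (bb * (p : MvPolynomial (Fin 2) ℝ)) =
      fun y => (1 - y.1 ^ 2 - y.2 ^ 2) * ev (p : MvPolynomial (Fin 2) ℝ) y := by
    ext y; rw [ev_mul, ev_bb]
  rw [h3] at h2
  exact h2

end AP65
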