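import Pool.Agent.Lib_helper65.AP.Diffeo

/-! Module C, part 2: the straightened coordinate and the final diffeomorphism. -/

namespace AP65

open Set Filter Topology Metric MeasureTheory AP
open scoped ContDiff

section straight

variable {w : ℝ × ℝ → ℝ} {c₀ : ℝ}

lemma D2w_strictMono (hw : ContDiff ℝ ∞ w) (hc : 0 < c₀) (h22 : ∀ x, c₀ ≤ D2 (D2 w) x) (x : ℝ) :
    StrictMono fun y => D2 w (x, y) := by
  refine strictMono_of_deriv_pos fun y => ?_
  rw [(hasDerivAt_D2slice hw x y).deriv]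
  exact hc.trans_le (h22 _)

lemma exists_Z (hw : ContDiff ℝ ∞ w) (hc : 0 < c₀) (h22 : ∀ x, c₀ ≤ D2 (D2 w) x)
    {m : ℝ → ℝ} (hm : ContDiff ℝ ∞ m) (hm0 : ∀ x, D2 w (x, m x) = 0)
    {κ : ℝ → ℝ} (hκ : ContDiff ℝ ∞ κ) (hκ0 : ∀ x, 0 < κ x) :
    ∃ Z : ℝ × ℝ → ℝ, ContDiff ℝ ∞ Z ∧ (∀ x, Function.Bijective fun y => Z (x, y)) ∧
      (∀ p, D2 Z p ≠ 0) ∧ ∀ x y, Z (x, y) ^ 2 = (w (x, y) - w (x, m x)) * κ x ^ 2 := by
  obtain ⟨g, hg, hgpos, hgw⟩ := exists_quad hw h22 hm hm0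
  have hg0 : ∀ p, 0 < g p := fun p => (by linarith : 0 < c₀ / 2).trans_le (hgpos p)
  have hS : ContDiff ℝ ∞ fun p : ℝ × ℝ => Real.sqrt (g p) * κ p.1 :=
    (hg.sqrt fun p => (hg0 p).ne').mul (hκ.comp contDiff_fst)
  have hS0 : ∀ p : ℝ × ℝ, 0 < Real.sqrt (g p) * κ p.1 := fun p =>
    mul_pos (Real.sqrt_pos.2 (hg0 p)) (hκ0 _)
  let Z : ℝ × ℝ → ℝ := fun p => (p.2 - m p.1) * (Real.sqrt (g p) * κ p.1)
  have hZ : ContDiff ℝ ∞ Z := by
    have h1 : ContDiff ℝ ∞ fun p : ℝ × ℝ => p.2 - m p.1 := contDiff_snd.sub (hm.comp contDiff_fst)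
    exact h1.mul hS
  have hsq : ∀ x y, Z (x, y) ^ 2 = (w (x, y) - w (x, m x)) * κ x ^ 2 := by
    intro x y
    rw [hgw]
    change ((y - m x) * (Real.sqrt (g (x, y)) * κ x)) ^ 2 = _
    rw [mul_pow, mul_pow, Real.sq_sqrt (hg0 _).le]
    ring
  have hpos : ∀ x y, 0 < D2 Z (x, y) := by
    intro x y
    have hd : HasDerivAt (fun y => Z (x, y)) (D2 Z (x, y)) y := hasDerivAt_slice2 (cdi_diff hZ _)
    have h1 : HasDerivAt (fun y => Z (x, y) ^ 2) (2 * Z (x, y) * D2 Z (x, y)) y := by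
      have := hd.pow 2
      refine this.congr_deriv ?_
      norm_num
    have h2 : HasDerivAt (fun y => Z (x, y) ^ 2) (D2 w (x, y) * κ x ^ 2) y := by
      have h3 : HasDerivAt (fun y => w (x, y)) (D2 w (x, y)) y := hasDerivAt_slice2 (cdi_diff hw _)
      have h4 := (h3.sub_const (w (x, m x))).mul_const (κ x ^ 2)
      refine h4.congr_of_eventuallyEq (Eventually.of_forall fun y => hsq x y)
    have h5 := h1.unique h2
    have hκ2 : 0 < κ x ^ 2 := pow_pos (hκ0 x) 2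
    have hmono := D2w_strictMono hw hc h22 x
    rcases lt_trichotomy y (m x) with hy | hy | hy
    · have h6 : D2 w (x, y) < 0 := by rw [← hm0 x]; exact hmono hy
      have h7 : Z (x, y) < 0 := mul_neg_of_neg_of_pos (by simpa using sub_neg.2 hy) (hS0 _)
      by_contra hcon
      push Not at hcon
      have h8 : 0 ≤ 2 * Z (x, y) * D2 Z (x, y) :=
        mul_nonneg_of_nonpos_of_nonpos (by linarith) hcon
      have h9 : D2 w (x, y) * κ x ^ 2 < 0 := mul_neg_of_neg_of_pos h6 hκ2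
      linarith
    · have h6 : HasDerivAt (fun y => Z (x, y)) (Real.sqrt (g (x, m x)) * κ x) (m x) := by
        have h7 : HasDerivAt (fun y : ℝ => y - m x) 1 (m x) := (hasDerivAt_id _).sub_const _
        have h8 : DifferentiableAt ℝ (fun y => Real.sqrt (g (x, y)) * κ x) (m x) := by
          have : ContDiff ℝ ∞ fun y : ℝ => Real.sqrt (g (x, y)) * κ x :=
            hS.comp (by fun_prop : ContDiff ℝ ∞ fun y : ℝ => (x, y))
          exact this.differentiable (by simp) _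
        have h9 := h7.mul h8.hasDerivAt
        refine h9.congr_deriv ?_
        simp
      rw [hy] at hd ⊢
      rw [hd.unique h6]
      exact hS0 (x, m x)
    · have h6 : 0 < D2 w (x, y) := by rw [← hm0 x]; exact hmono hy
      have h7 : 0 < Z (x, y) := mul_pos (by simpa using sub_pos.2 hy) (hS0 _)
      by_contra hcon
      push Not at hcon
      have h8 : 2 * Z (x, y) * D2 Z (x, y) ≤ 0 :=
        mul_nonpos_of_nonneg_of_nonpos (by linarith) hcon
      have h9 : 0 < D2 w (x, y) * κ x ^ 2 := mul_pos h6 hκ2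
      linarith
  refine ⟨Z, hZ, fun x => ?_, fun p => (hpos p.1 p.2).ne', hsq⟩
  have hcont : Continuous fun y => Z (x, y) := hZ.continuous.comp (by fun_prop)
  have hc1 : 0 < Real.sqrt (c₀ / 2) * κ x := mul_pos (Real.sqrt_pos.2 (by linarith)) (hκ0 x)
  have hle : ∀ y, Real.sqrt (c₀ / 2) * κ x ≤ Real.sqrt (g (x, y)) * κ x := fun y =>
    mul_le_mul_of_nonneg_right (Real.sqrt_le_sqrt (hgpos _)) (hκ0 x).le
  have hZm : Z (x, m x) = 0 := by
    change (m x - m x) * _ = 0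
    rw [sub_self, zero_mul]
  refine bijective_of_growth (y₀ := m x) (c := Real.sqrt (c₀ / 2) * κ x) ?_ hcont hc1 ?_ ?_
  · refine strictMono_of_deriv_pos fun y => ?_
    have hd : HasDerivAt (fun y => Z (x, y)) (D2 Z (x, y)) y := hasDerivAt_slice2 (cdi_diff hZ _)
    rw [hd.deriv]
    exact hpos x y
  · intro y hy
    rw [hZm, zero_add]
    change _ ≤ (y - m x) * (Real.sqrt (g (x, y)) * κ x)
    rw [mul_comm]
    exact mul_le_mul_of_nonneg_left (hle y) (by linarith)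
  · intro y hy
    rw [hZm, zero_add]
    change (y - m x) * (Real.sqrt (g (x, y)) * κ x) ≤ _
    rw [mul_comm (Real.sqrt (c₀ / 2) * κ x)]
    exact mul_le_mul_of_nonpos_left (hle y) (by linarith)

end straight

section domain

variable {w : ℝ × ℝ → ℝ} {Ω : Set (ℝ × ℝ)} {c₀ : ℝ}

lemma slice_convex (hw : ContDiff ℝ ∞ w) (hc : 0 < c₀) (h22 : ∀ x, c₀ ≤ D2 (D2 w) x) (x : ℝ) :
    ConvexOn ℝ univ fun y => w (x, y) := by
  have h3 : ∀ y, HasDerivAt (fun y => w (x, y)) (D2 w (x, y)) y := fun y =>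
    hasDerivAt_slice2 (cdi_diff hw _)
  refine Monotone.convexOn_univ_of_deriv (fun y => (h3 y).differentiableAt) ?_
  have : deriv (fun y => w (x, y)) = fun y => D2 w (x, y) := by
    ext y; exact (h3 y).deriv
  rw [this]
  exact (D2w_strictMono hw hc h22 x).monotone

lemma seg_neg (hw : ContDiff ℝ ∞ w) (hc : 0 < c₀) (h22 : ∀ x, c₀ ≤ D2 (D2 w) x)
    {x y₁ y₂ : ℝ} (h1 : w (x, y₁) < 0) (h2 : w (x, y₂) < 0) :
    ∀ z ∈ segment ℝ (x, y₁) (x, y₂), w z < 0 := by
  rintro z ⟨a, b, ha, hb, hab, rfl⟩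
  have hz : a • (x, y₁) + b • (x, y₂) = (x, a * y₁ + b * y₂) := by
    ext
    · simp only [Prod.fst_add, Prod.smul_fst, smul_eq_mul]
      rw [← add_mul, hab, one_mul]
    · simp
  rw [hz]
  have h3 := (slice_convex hw hc h22 x).2 (mem_univ y₁) (mem_univ y₂) ha hb hab
  simp only [smul_eq_mul] at h3
  rcases ha.eq_or_lt with h | h
  · rw [← h] at h3 hab ⊢
    have hb1 : b = 1 := by linarith
    rw [hb1] at h3 ⊢
    linarith
  · have h4 : a * w (x, y₁) < 0 := mul_neg_of_pos_of_neg h h1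
    have h5 : b * w (x, y₂) ≤ 0 := mul_nonpos_of_nonneg_of_nonpos hb h2.le
    linarith

lemma slice_mem (hw : ContDiff ℝ ∞ w) (hD : Dom w Ω c₀)
    {x y₁ y₂ : ℝ} (h1 : (x, y₁) ∈ Ω) (h2 : w (x, y₂) < 0) : (x, y₂) ∈ Ω :=
  hD.seg _ h1 _ (seg_neg hw hD.cpos hD.w22 (hD.neg _ h1) h2)

lemma valley_le (hw : ContDiff ℝ ∞ w) (hc : 0 < c₀) (h22 : ∀ x, c₀ ≤ D2 (D2 w) x)
    {m : ℝ → ℝ} (hm : ContDiff ℝ ∞ m) (hm0 : ∀ x, D2 w (x, m x) = 0) (x y : ℝ) :
    w (x, m x) ≤ w (x, y) := by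
  obtain ⟨g, hg, hgpos, hgw⟩ := exists_quad hw h22 hm hm0
  have h1 := hgw x y
  have h2 := mul_nonneg (sq_nonneg (y - m x)) ((by linarith : 0 ≤ c₀ / 2).trans (hgpos (x, y)))
  linarith

lemma valley_lt (hw : ContDiff ℝ ∞ w) (hc : 0 < c₀) (h22 : ∀ x, c₀ ≤ D2 (D2 w) x)
    {m : ℝ → ℝ} (hm : ContDiff ℝ ∞ m) (hm0 : ∀ x, D2 w (x, m x) = 0) {x y : ℝ} (hy : y ≠ m x) :
    w (x, m x) < w (x, y) := by
  obtain ⟨g, hg, hgpos, hgw⟩ := exists_quad hw h22 hm hm0
  have h1 := hgw x y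
  have h2 := mul_pos (pow_pos_of_ne_zero (sub_ne_zero.2 hy)) ((by linarith : 0 < c₀ / 2).trans_le (hgpos (x, y)))
  linarith
where
  pow_pos_of_ne_zero {t : ℝ} (ht : t ≠ 0) : 0 < t ^ 2 := by positivity

/-- At an end point of the projection the valley value vanishes and its derivative does not. -/
lemma endpoint (hw : ContDiff ℝ ∞ w) (hD : Dom w Ω c₀)
    {m : ℝ → ℝ} (hm : ContDiff ℝ ∞ m) (hm0 : ∀ x, D2 w (x, m x) = 0)
    {e : ℝ} (he : e ∈ closure (Prod.fst '' Ω)) (he' : e ∉ Prod.fst '' Ω) :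
    w (e, m e) = 0 ∧ D1 w (e, m e) ≠ 0 := by
  have h1 : e ∈ Prod.fst '' closure Ω := by
    have hcl : IsClosed (Prod.fst '' closure Ω) := (hD.compact.image continuous_fst).isClosed
    exact (hcl.closure_subset_iff.2 (image_mono subset_closure)) he
  obtain ⟨⟨e1, y⟩, hy, hye⟩ := h1
  simp only at hye
  subst hye
  have h2 : (e1, y) ∉ Ω := fun h => he' ⟨_, h, rfl⟩
  have h3 : (e1, y) ∈ frontier Ω := (hD.mem_or hy).resolve_left h2
  have h4 := hD.zero _ h3
  have h5 : y = m e1 := by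
    by_contra hne
    have h6 := valley_lt hw hD.cpos hD.w22 hm hm0 hne
    rw [h4] at h6
    obtain ⟨δ, hδ, hloc⟩ := hD.loc _ h3
    obtain ⟨t, ht0, ht1, htd⟩ : ∃ t : ℝ, 0 < t ∧ t ≤ 1 ∧ t * |m e1 - y| < δ := by
      refine ⟨min 1 (δ / (|m e1 - y| + 1)), ?_, min_le_left _ _, ?_⟩
      · exact lt_min one_pos (by positivity)
      · have hp : 0 < |m e1 - y| + 1 := by positivity
        calc min 1 (δ / (|m e1 - y| + 1)) * |m e1 - y|
            ≤ δ / (|m e1 - y| + 1) * |m e1 - y| :=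
              mul_le_mul_of_nonneg_right (min_le_right _ _) (abs_nonneg _)
          _ < δ / (|m e1 - y| + 1) * (|m e1 - y| + 1) :=
              mul_lt_mul_of_pos_left (by linarith) (by positivity)
          _ = δ := by field_simp
    have hcv := (slice_convex hw hD.cpos hD.w22 e1).2 (mem_univ y) (mem_univ (m e1))
      (by linarith : 0 ≤ 1 - t) ht0.le (by ring)
    simp only [smul_eq_mul] at hcv
    have hneg : w (e1, (1 - t) * y + t * m e1) < 0 := by
      have := mul_neg_of_pos_of_neg ht0 h6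
      rw [h4] at hcv
      linarith
    have hmem := hloc (e1, (1 - t) * y + t * m e1) (by
      rw [Prod.dist_eq, dist_self, max_eq_right dist_nonneg, Real.dist_eq]
      have : (1 - t) * y + t * m e1 - y = t * (m e1 - y) := by ring
      change |(1 - t) * y + t * m e1 - y| < δ
      rw [this, abs_mul, abs_of_pos ht0]
      exact htd) hneg
    exact he' ⟨_, hmem, rfl⟩
  rw [h5] at h4 h3
  refine ⟨h4, ?_⟩
  rcases hD.grad _ h3 with h | h
  · exact h
  · exact absurd (hm0 e1) h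

lemma valley_deriv (hw : ContDiff ℝ ∞ w) {m : ℝ → ℝ} (hm : ContDiff ℝ ∞ m)
    (hm0 : ∀ x, D2 w (x, m x) = 0) (x : ℝ) :
    HasDerivAt (fun x => w (x, m x)) (D1 w (x, m x)) x := by
  have h1 : HasFDerivAt w (fderiv ℝ w (x, m x)) (x, m x) := (cdi_diff hw _).hasFDerivAt
  have h2 : HasDerivAt (fun x : ℝ => (x, m x)) ((1 : ℝ), deriv m x) x :=
    (hasDerivAt_id x).prodMk (hm.differentiable (by simp) x).hasDerivAt
  have h3 := h1.comp_hasDerivAt x h2
  refine h3.congr_deriv ?_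
  rw [fderiv_apply_eq, hm0]
  simp

/-- the positive quotient of the valley function -/
lemma exists_k (hw : ContDiff ℝ ∞ w) (hD : Dom w Ω c₀) (hne : Ω.Nonempty)
    (hconn : IsPreconnected Ω) {m : ℝ → ℝ} (hm : ContDiff ℝ ∞ m)
    (hm0 : ∀ x, D2 w (x, m x) = 0) :
    ∃ (a b : ℝ) (k : ℝ → ℝ), a < b ∧ Prod.fst '' Ω = Ioo a b ∧ ContDiff ℝ ∞ k ∧ (∀ x, 0 < k x) ∧
      ∀ x ∈ Icc a b, w (x, m x) = (x - a) * (x - b) * k x := by
  set P : Set ℝ := Prod.fst '' Ω with hP
  have hPo : IsOpen P := isOpenMap_fst _ hD.isOpen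
  have hPne : P.Nonempty := hne.image _
  have hPc : IsConnected P := ⟨hPne, hconn.image _ continuous_fst.continuousOn⟩
  have hPb : Bornology.IsBounded P := hD.bdd.image_fst
  set a := sInf P with ha
  set b := sSup P with hb
  have hsub1 : Ioo a b ⊆ P := hPc.Ioo_csInf_csSup_subset hPb.bddBelow hPb.bddAbove
  have hsub2 : P ⊆ Ioo a b := by
    intro x hx
    obtain ⟨ε, hε, hball⟩ := Metric.isOpen_iff.1 hPo x hx
    have h1 : x - ε / 2 ∈ P := hball (by
      rw [mem_ball, Real.dist_eq]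
      have : x - ε / 2 - x = -(ε / 2) := by ring
      rw [this, abs_neg, abs_of_pos (by positivity)]; linarith)
    have h2 : x + ε / 2 ∈ P := hball (by
      rw [mem_ball, Real.dist_eq]
      have : x + ε / 2 - x = ε / 2 := by ring
      rw [this, abs_of_pos (by positivity)]; linarith)
    have h3 : a ≤ x - ε / 2 := csInf_le hPb.bddBelow h1
    have h4 : x + ε / 2 ≤ b := le_csSup hPb.bddAbove h2
    exact ⟨by linarith, by linarith⟩
  have hPeq : P = Ioo a b := Subset.antisymm hsub2 hsub1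
  have hab : a < b := by
    obtain ⟨x, hx⟩ := hPne
    have := hsub2 hx
    exact this.1.trans this.2
  have hclP : closure P = Icc a b := by rw [hPeq, closure_Ioo hab.ne]
  obtain ⟨hμa, hda⟩ := endpoint hw hD hm hm0 (e := a)
    (by rw [← hP, hclP]; exact left_mem_Icc.2 hab.le)
    (by rw [← hP, hPeq]; exact fun h => lt_irrefl _ h.1)
  obtain ⟨hμb, hdb⟩ := endpoint hw hD hm hm0 (e := b)
    (by rw [← hP, hclP]; exact right_mem_Icc.2 hab.le)
    (by rw [← hP, hPeq]; exact fun h => lt_irrefl _ h.2)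
  have hμ : ContDiff ℝ ∞ fun x => w (x, m x) := hw.comp (contDiff_id.prodMk hm)
  obtain ⟨g1, hg1, hg1e⟩ := hadamard1 hμ hμa
  have hg1b : g1 b = 0 := by
    have := hg1e b
    rw [hμb] at this
    exact (mul_eq_zero.1 this.symm).resolve_left (sub_ne_zero.2 hab.ne')
  obtain ⟨h, hh, hhe⟩ := hadamard1 hg1 hg1b
  have hfac : ∀ x, w (x, m x) = (x - a) * (x - b) * h x := by
    intro x; rw [hg1e, hhe]; ring
  have hdh : Differentiable ℝ h := hh.differentiable (by simp)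
  have hha : h a ≠ 0 := by
    intro h0
    apply hda
    have h1 := valley_deriv hw hm hm0 a
    have h2 : HasDerivAt (fun x => w (x, m x)) 0 a := by
      have h3 : HasDerivAt (fun x => (x - a) * ((x - b) * h x))
          (1 * ((a - b) * h a) + (a - a) * (1 * h a + (a - b) * deriv h a)) a :=
        ((hasDerivAt_id a).sub_const a).mul
          (((hasDerivAt_id a).sub_const b).mul (hdh a).hasDerivAt)
      have h4 : HasDerivAt (fun x => w (x, m x))
          (1 * ((a - b) * h a) + (a - a) * (1 * h a + (a - b) * deriv h a)) a := by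
        refine h3.congr_of_eventuallyEq (Eventually.of_forall fun x => ?_)
        simp only
        rw [hfac]; ring
      refine h4.congr_deriv ?_
      rw [h0]; ring
    exact h1.unique h2
  have hhb : h b ≠ 0 := by
    intro h0
    apply hdb
    have h1 := valley_deriv hw hm hm0 b
    have h2 : HasDerivAt (fun x => w (x, m x)) 0 b := by
      have h3 : HasDerivAt (fun x => (x - b) * ((x - a) * h x))
          (1 * ((b - a) * h b) + (b - b) * (1 * h b + (b - a) * deriv h b)) b :=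
        ((hasDerivAt_id b).sub_const b).mul
          (((hasDerivAt_id b).sub_const a).mul (hdh b).hasDerivAt)
      have h4 : HasDerivAt (fun x => w (x, m x))
          (1 * ((b - a) * h b) + (b - b) * (1 * h b + (b - a) * deriv h b)) b := by
        refine h3.congr_of_eventuallyEq (Eventually.of_forall fun x => ?_)
        simp only
        rw [hfac]; ring
      refine h4.congr_deriv ?_
      rw [h0]; ring
    exact h1.unique h2
  have hhpos : ∀ x ∈ Ioo a b, 0 < h x := by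
    intro x hx
    have h1 : x ∈ P := hsub1 hx
    obtain ⟨⟨x1, y⟩, hy, hyx⟩ := h1
    simp only at hyx
    subst hyx
    have h2 := valley_le hw hD.cpos hD.w22 hm hm0 x1 y
    have h3 := hD.neg _ hy
    have h4 : (x1 - a) * (x1 - b) * h x1 < 0 := by rw [← hfac]; linarith
    have h5 : (x1 - a) * (x1 - b) < 0 := mul_neg_of_pos_of_neg (by linarith [hx.1]) (by linarith [hx.2])
    by_contra hcon
    push Not at hcon
    have := mul_nonneg_of_nonpos_of_nonpos h5.le hcon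
    linarith
  have hhnn : ∀ x ∈ Icc a b, 0 ≤ h x := by
    intro x hx
    have hcl : IsClosed {x | 0 ≤ h x} := isClosed_le continuous_const hh.continuous
    have h1 : closure (Ioo a b) ⊆ {x | 0 ≤ h x} := hcl.closure_subset_iff.2 fun x hx => (hhpos x hx).le
    rw [closure_Ioo hab.ne] at h1
    exact h1 hx
  have hhpos' : ∀ x ∈ Icc a b, 0 < h x := by
    intro x hx
    rcases (hhnn x hx).eq_or_lt with h1 | h1
    · exfalso
      rcases hx.1.eq_or_lt with h2 | h2
      · exact hha (by rw [h2]; exact h1.symm)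
      · rcases hx.2.eq_or_lt with h3 | h3
        · exact hhb (by rw [← h3]; exact h1.symm)
        · exact absurd h1 (hhpos x ⟨h2, h3⟩).ne
    · exact h1
  -- cut off
  set c := (a + b) / 2 with hc
  set r := (b - a) / 2 with hr
  have hr0 : 0 < r := by rw [hr]; linarith
  have hball : closedBall c r = Icc a b := by
    rw [Real.closedBall_eq_Icc]; congr 1 <;> rw [hc, hr] <;> ring
  have hopen : IsOpen {x | 0 < h x} := isOpen_lt continuous_const hh.continuous
  obtain ⟨δ, hδ, hδs⟩ := (isCompact_closedBall c r).exists_thickening_subset_open hopen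
    (by rw [hball]; exact hhpos')
  rw [thickening_closedBall hδ hr0.le] at hδs
  let χ : ContDiffBump c := ⟨r, δ + r, hr0, by linarith⟩
  refine ⟨a, b, fun x => χ x * h x + (1 - χ x), hab, hPeq, ?_, ?_, ?_⟩
  · have hχ : ContDiff ℝ ∞ (χ : ℝ → ℝ) := χ.contDiff
    exact (hχ.mul hh).add (contDiff_const.sub hχ)
  · intro x
    have h1 : 0 ≤ χ x := χ.nonneg
    have h2 : χ x ≤ 1 := χ.le_one
    simp only
    rcases h1.eq_or_lt with h3 | h3
    · rw [← h3]; norm_num
    · have h4 : x ∈ ball c (δ + r) := by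
        have h5 : x ∈ Function.support (χ : ℝ → ℝ) := h3.ne'
        rw [χ.support_eq] at h5
        exact h5
      have h5 : 0 < h x := hδs h4
      have := mul_pos h3 h5
      linarith
  · intro x hx
    have h1 : χ x = 1 := χ.one_of_mem_closedBall (by
      change x ∈ closedBall c r
      rw [hball]; exact hx)
    simp only
    rw [h1, hfac]; ring

/-- **Module C.** The domain `Ω` is carried onto the unit disc by a smooth diffeomorphism of the
plane. -/
theorem exists_diffeo (hw : ContDiff ℝ ∞ w) (hD : Dom w Ω c₀) (hne : Ω.Nonempty)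
    (hconn : IsPreconnected Ω) :
    ∃ Φ Ψ : ℝ × ℝ → ℝ × ℝ, ContDiff ℝ ∞ Φ ∧ ContDiff ℝ ∞ Ψ ∧
      (∀ x, Ψ (Φ x) = x) ∧ (∀ y, Φ (Ψ y) = y) ∧
      (∀ x ∈ Ω, (Φ x).1 ^ 2 + (Φ x).2 ^ 2 < 1) ∧
      (∀ x ∈ frontier Ω, (Φ x).1 ^ 2 + (Φ x).2 ^ 2 = 1) ∧
      (∀ y, y.1 ^ 2 + y.2 ^ 2 < 1 → Ψ y ∈ Ω) ∧
      (∀ y, y.1 ^ 2 + y.2 ^ 2 = 1 → Ψ y ∈ frontier Ω) := by
  obtain ⟨m, hm, hm0⟩ := exists_valley hw hD.cpos hD.w22
  obtain ⟨a, b, k, hab, hP, hk, hkpos, hkeq⟩ := exists_k hw hD hne hconn hm hm0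
  set κ : ℝ → ℝ := fun x => 2 / (b - a) * (Real.sqrt (k x))⁻¹ with hκdef
  have hba : 0 < b - a := by linarith
  have hκ : ContDiff ℝ ∞ κ := by
    have h1 : ContDiff ℝ ∞ fun x => Real.sqrt (k x) := hk.sqrt fun x => (hkpos x).ne'
    exact contDiff_const.mul (h1.inv fun x => (Real.sqrt_pos.2 (hkpos x)).ne')
  have hκ0 : ∀ x, 0 < κ x := fun x =>
    mul_pos (by positivity) (inv_pos.2 (Real.sqrt_pos.2 (hkpos x)))
  have hκ2 : ∀ x, κ x ^ 2 * k x = 4 / (b - a) ^ 2 := by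
    intro x
    simp only [hκdef]
    rw [mul_pow, inv_pow, Real.sq_sqrt (hkpos x).le]
    have := (hkpos x).ne'
    field_simp
    norm_num
  obtain ⟨Z, hZ, hZb, hZd, hZsq⟩ := exists_Z hw hD.cpos hD.w22 hm hm0 hκ hκ0
  obtain ⟨H, hH, hZH, hHZ⟩ := fiber_inverse hZ hZb hZd
  let A : ℝ → ℝ := fun x => (2 * x - a - b) / (b - a)
  let B : ℝ → ℝ := fun X => (a + b + (b - a) * X) / 2
  have hA : ContDiff ℝ ∞ A := by
    have : ContDiff ℝ ∞ fun x : ℝ => 2 * x - a - b := by fun_prop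
    exact this.div_const _
  have hB : ContDiff ℝ ∞ B := by
    have : ContDiff ℝ ∞ fun X : ℝ => a + b + (b - a) * X := by fun_prop
    exact this.div_const _
  have hBA : ∀ x, B (A x) = x := by
    intro x; simp only [A, B]; field_simp; ring
  have hAB : ∀ X, A (B X) = X := by
    intro x; simp only [A, B]; field_simp; ring
  have hA2 : ∀ x, 1 - A x ^ 2 = -(4 / (b - a) ^ 2 * ((x - a) * (x - b))) := by
    intro x; simp only [A]; field_simp; ring
  let Φ : ℝ × ℝ → ℝ × ℝ := fun p => (A p.1, Z p)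
  let Ψ : ℝ × ℝ → ℝ × ℝ := fun p => (B p.1, H (B p.1, p.2))
  have hΦ : ContDiff ℝ ∞ Φ := (hA.comp contDiff_fst).prodMk hZ
  have hΨ : ContDiff ℝ ∞ Ψ :=
    (hB.comp contDiff_fst).prodMk (hH.comp ((hB.comp contDiff_fst).prodMk contDiff_snd))
  have hΨΦ : ∀ x, Ψ (Φ x) = x := by
    rintro ⟨x, y⟩
    change (B (A x), H (B (A x), Z (x, y))) = (x, y)
    rw [hBA, hHZ]
  have hΦΨ : ∀ x, Φ (Ψ x) = x := by
    rintro ⟨x, y⟩
    change (A (B x), Z (B x, H (B x, y))) = (x, y)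
    rw [hAB, hZH]
  -- the key identity
  have key : ∀ x ∈ Icc a b, ∀ y, 1 - ((A x) ^ 2 + Z (x, y) ^ 2) = -(w (x, y) * κ x ^ 2) := by
    intro x hx y
    have h1 := hkeq x hx
    have h2 := hZsq x y
    have h3 := hA2 x
    have h4 := hκ2 x
    have h5 : 4 / (b - a) ^ 2 * ((x - a) * (x - b)) = w (x, m x) * κ x ^ 2 := by
      rw [h1, ← h4]; ring
    rw [h5] at h3
    linarith
  have hΩ1 : ∀ x ∈ Ω, (Φ x).1 ^ 2 + (Φ x).2 ^ 2 < 1 := by
    rintro ⟨x, y⟩ hx
    have hxP : x ∈ Ioo a b := by rw [← hP]; exact ⟨_, hx, rfl⟩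
    have h1 := key x (Ioo_subset_Icc_self hxP) y
    have h2 : w (x, y) * κ x ^ 2 < 0 := mul_neg_of_neg_of_pos (hD.neg _ hx) (pow_pos (hκ0 x) 2)
    change A x ^ 2 + Z (x, y) ^ 2 < 1
    linarith
  have hΩ2 : ∀ x ∈ frontier Ω, (Φ x).1 ^ 2 + (Φ x).2 ^ 2 = 1 := by
    rintro ⟨x, y⟩ hx
    have hxP : x ∈ Icc a b := by
      have h1 : x ∈ closure (Prod.fst '' Ω) :=
        (image_closure_subset_closure_image continuous_fst)
          ⟨(x, y), frontier_subset_closure hx, rfl⟩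
      rw [hP, closure_Ioo hab.ne] at h1
      exact h1
    have h1 := key x hxP y
    rw [hD.zero _ hx, zero_mul] at h1
    change A x ^ 2 + Z (x, y) ^ 2 = 1
    linarith
  have hΩ3 : ∀ y, y.1 ^ 2 + y.2 ^ 2 < 1 → Ψ y ∈ Ω := by
    rintro ⟨X, Y⟩ hXY
    simp only at hXY
    have hx : B X ∈ Ioo a b := by
      have h1 : X ^ 2 < 1 := by nlinarith [sq_nonneg Y]
      have h2 : -1 < X ∧ X < 1 := abs_lt.1 (by
        rw [← one_pow 2] at h1
        exact abs_lt_of_sq_lt_sq h1 zero_le_one)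
      constructor
      · simp only [B]; nlinarith
      · simp only [B]; nlinarith
    have h1 := key (B X) (Ioo_subset_Icc_self hx) (H (B X, Y))
    rw [hAB, hZH] at h1
    have h2 : w (B X, H (B X, Y)) < 0 := by
      have h3 : 0 < κ (B X) ^ 2 := pow_pos (hκ0 _) 2
      by_contra hcon
      push Not at hcon
      have := mul_nonneg hcon h3.le
      linarith
    rw [← hP] at hx
    obtain ⟨⟨x1, y1⟩, hx1, hx2⟩ := hx
    simp only at hx2
    change (B X, H (B X, Y)) ∈ Ω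
    rw [← hx2] at h2 ⊢
    exact slice_mem hw hD hx1 h2
  refine ⟨Φ, Ψ, hΦ, hΨ, hΨΦ, hΦΨ, hΩ1, hΩ2, hΩ3, ?_⟩
  intro y hy
  rw [frontier, hD.isOpen.interior_eq]
  refine ⟨?_, fun hmem => ?_⟩
  · have h1 : Tendsto (fun t : ℝ => Ψ (t • y)) (𝓝[<] 1) (𝓝 (Ψ ((1 : ℝ) • y))) := by
      have : Continuous fun t : ℝ => Ψ (t • y) := hΨ.continuous.comp (by fun_prop)
      exact this.continuousAt.tendsto.mono_left nhdsWithin_le_nhds
    rw [one_smul] at h1
    refine mem_closure_of_tendsto h1 ?_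
    have h2 : ∀ᶠ t : ℝ in 𝓝[<] 1, 0 < t :=
      (eventually_gt_nhds (by norm_num : (0 : ℝ) < 1)).filter_mono nhdsWithin_le_nhds
    filter_upwards [self_mem_nhdsWithin, h2] with t ht ht0
    have ht' : t < 1 := ht
    refine hΩ3 _ ?_
    simp only [Prod.smul_fst, Prod.smul_snd, smul_eq_mul]
    have : (t * y.1) ^ 2 + (t * y.2) ^ 2 = t ^ 2 := by
      have : (t * y.1) ^ 2 + (t * y.2) ^ 2 = t ^ 2 * (y.1 ^ 2 + y.2 ^ 2) := by ring
      rw [this, hy, mul_one]
    rw [this]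
    nlinarith
  · have := hΩ1 _ hmem
    rw [hΦΨ] at this
    linarith

end domain

end AP65
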