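import Mathlib

/-! Smoothness of parametric integrals over `[0,1]`, and of inverses of smooth maps. -/

namespace AP65

open Set Filter Topology Metric MeasureTheory
open scoped ContDiff

section param

variable {E : Type} [NormedAddCommGroup E] [NormedSpace ℝ E] [ProperSpace E]

theorem hasFDerivAt_param {F : Type} [NormedAddCommGroup F] [NormedSpace ℝ F]
    {f : E × ℝ → F} (hf : ContDiff ℝ 1 f) (x : E) :
    HasFDerivAt (fun x => ∫ t in (0 : ℝ)..1, f (x, t))
      (∫ t in (0 : ℝ)..1, (fderiv ℝ f (x, t)).comp (ContinuousLinearMap.inl ℝ E ℝ)) x := by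
  have hcf : Continuous (fderiv ℝ f) := hf.continuous_fderiv (by norm_num)
  have hcg : Continuous fun p : E × ℝ => (fderiv ℝ f p).comp (ContinuousLinearMap.inl ℝ E ℝ) :=
    hcf.clm_comp continuous_const
  have hK : IsCompact (closedBall x 1 ×ˢ Icc (0 : ℝ) 1) := (isCompact_closedBall x 1).prod isCompact_Icc
  obtain ⟨C, hC⟩ := hK.exists_bound_of_continuousOn hcg.continuousOn
  refine hasFDerivAt_integral_of_dominated_of_fderiv_le'' (s := closedBall x 1)
    (F := fun x t => f (x, t))
    (F' := fun x t => (fderiv ℝ f (x, t)).comp (ContinuousLinearMap.inl ℝ E ℝ))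
    (bound := fun _ => C) (closedBall_mem_nhds x one_pos) ?_ ?_ ?_ ?_ ?_ ?_
  · refine Eventually.of_forall fun y => ?_
    have : Continuous fun t => f (y, t) := hf.continuous.comp (by fun_prop)
    exact this.aestronglyMeasurable
  · have : Continuous fun t => f (x, t) := hf.continuous.comp (by fun_prop)
    exact this.intervalIntegrable _ _
  · have : Continuous fun t => (fderiv ℝ f (x, t)).comp (ContinuousLinearMap.inl ℝ E ℝ) :=
      hcg.comp (by fun_prop : Continuous fun t : ℝ => (x, t))
    exact this.aestronglyMeasurable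
  · refine (ae_restrict_iff' measurableSet_uIoc).2 (Eventually.of_forall fun t ht y hy => ?_)
    refine hC (y, t) ⟨hy, ?_⟩
    rw [uIoc_of_le zero_le_one] at ht
    exact Ioc_subset_Icc_self ht
  · exact intervalIntegrable_const
  · refine Eventually.of_forall fun t y _ => ?_
    have h1 : HasFDerivAt f (fderiv ℝ f (y, t)) (y, t) :=
      (hf.differentiable (by norm_num) (y, t)).hasFDerivAt
    exact h1.comp y (hasFDerivAt_prodMk_left y t)

theorem contDiff_param_nat (n : ℕ) : ∀ {F : Type} [NormedAddCommGroup F] [NormedSpace ℝ F]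
    {f : E × ℝ → F} (_ : ContDiff ℝ n f), ContDiff ℝ n (fun x => ∫ t in (0 : ℝ)..1, f (x, t)) := by
  induction n with
  | zero =>
    intro F _ _ f hf
    have hc : Continuous f := hf.continuous
    have : Continuous (fun x => ∫ t in (0 : ℝ)..1, f (x, t)) :=
      intervalIntegral.continuous_parametric_intervalIntegral_of_continuous'
        (f := fun x t => f (x, t)) hc 0 1
    exact contDiff_zero.2 this
  | succ n ih =>
    intro F _ _ f hf
    have h1 : ContDiff ℝ 1 f := hf.of_le (by norm_cast; omega)
    have hd := fun x => hasFDerivAt_param h1 x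
    have e : fderiv ℝ (fun x => ∫ t in (0 : ℝ)..1, f (x, t)) =
        fun x => ∫ t in (0 : ℝ)..1, (fderiv ℝ f (x, t)).comp (ContinuousLinearMap.inl ℝ E ℝ) := by
      ext1 x; exact (hd x).fderiv
    have hn : ContDiff ℝ ((n : WithTop ℕ∞) + 1) (fun x => ∫ t in (0 : ℝ)..1, f (x, t)) := by
      rw [contDiff_succ_iff_fderiv]
      refine ⟨fun x => (hd x).differentiableAt, fun h => ?_, ?_⟩
      · exact absurd h (by simp)
      · rw [e]
        refine ih (f := fun p : E × ℝ => (fderiv ℝ f p).comp (ContinuousLinearMap.inl ℝ E ℝ)) ?_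
        have h2 : ContDiff ℝ n (fderiv ℝ f) := hf.fderiv_right (by norm_cast)
        exact h2.clm_comp contDiff_const
    exact_mod_cast hn

/-- Parametric integrals of smooth functions are smooth. -/
theorem contDiff_param {F : Type} [NormedAddCommGroup F] [NormedSpace ℝ F]
    {f : E × ℝ → F} (hf : ContDiff ℝ ∞ f) : ContDiff ℝ ∞ (fun x => ∫ t in (0 : ℝ)..1, f (x, t)) :=
  contDiff_infty.2 fun n => contDiff_param_nat n (contDiff_infty.1 hf n)

end param

section inverse

variable {E : Type*} [NormedAddCommGroup E] [NormedSpace ℝ E] [FiniteDimensional ℝ E]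

/-- A left inverse of a smooth map is smooth at the image of each point where the derivative is
injective. -/
theorem contDiffAt_leftInverse [CompleteSpace E] {F G : E → E} {a : E} {n : WithTop ℕ∞} (hn : n ≠ 0)
    (hF : ContDiffAt ℝ n F a)
    (hinj : ∀ v, fderiv ℝ F a v = 0 → v = 0) (hG : ∀ᶠ x in 𝓝 a, G (F x) = x) :
    ContDiffAt ℝ n G (F a) := by
  have hI : Function.Injective (fderiv ℝ F a : E →ₗ[ℝ] E) := by
    rw [injective_iff_map_eq_zero]; exact hinj
  let e0 : E ≃ₗ[ℝ] E := LinearEquiv.ofInjectiveEndo _ hI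
  let e : E ≃L[ℝ] E := e0.toContinuousLinearEquiv
  have he : (e : E →L[ℝ] E) = fderiv ℝ F a := by
    ext v; rfl
  have hd : HasFDerivAt F (e : E →L[ℝ] E) a := by
    rw [he]; exact (hF.differentiableAt hn).hasFDerivAt
  have h1 := hF.to_localInverse hd hn
  have h2 := (hF.hasStrictFDerivAt' hd hn).localInverse_unique hG
  exact h1.congr_of_eventuallyEq h2

end inverse

end AP65
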