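import Pool.Agent.Lib_helper42.AP.Dom
import Pool.Agent.Lib_helper65.AP.Param

/-! Module C: a smooth diffeomorphism of the plane carrying `Ω` onto the unit disc. -/

namespace AP65

open Set Filter Topology Metric MeasureTheory AP
open scoped ContDiff

section general

lemma cdi_D1 {f : ℝ × ℝ → ℝ} (h : ContDiff ℝ ∞ f) : ContDiff ℝ ∞ (D1 f) := by
  have h1 : ContDiff ℝ ∞ (fderiv ℝ f) := h.fderiv_right (by simp)
  exact h1.clm_apply contDiff_const

lemma cdi_D2 {f : ℝ × ℝ → ℝ} (h : ContDiff ℝ ∞ f) : ContDiff ℝ ∞ (D2 f) := by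
  have h1 : ContDiff ℝ ∞ (fderiv ℝ f) := h.fderiv_right (by simp)
  exact h1.clm_apply contDiff_const

lemma cdi_diff {f : ℝ × ℝ → ℝ} (h : ContDiff ℝ ∞ f) (x : ℝ × ℝ) : DifferentiableAt ℝ f x :=
  h.differentiable (by simp) x

/-- a strictly increasing continuous function with linear growth is a bijection of `ℝ` -/
lemma bijective_of_growth {f : ℝ → ℝ} (hm : StrictMono f) (hc : Continuous f) {y₀ c : ℝ}
    (hc0 : 0 < c) (h1 : ∀ y, y₀ ≤ y → f y₀ + c * (y - y₀) ≤ f y)
    (h2 : ∀ y, y ≤ y₀ → f y ≤ f y₀ + c * (y - y₀)) : Function.Bijective f := by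
  refine ⟨hm.injective, ?_⟩
  refine hc.surjective ?_ ?_
  · refine tendsto_atTop_mono' atTop (f₁ := fun y => f y₀ + c * (y - y₀)) ?_ ?_
    · filter_upwards [eventually_ge_atTop y₀] with y hy using h1 y hy
    · refine tendsto_atTop_add_const_left _ _ ?_
      exact (tendsto_atTop_add_const_right _ (-y₀) tendsto_id).const_mul_atTop hc0
  · refine tendsto_atBot_mono' atBot (f₁ := fun y => f y₀ + c * (y - y₀)) ?_ ?_
    · filter_upwards [eventually_le_atBot y₀] with y hy using h2 y hy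
    · refine tendsto_atBot_add_const_left _ _ ?_
      exact (tendsto_atBot_add_const_right _ (-y₀) tendsto_id).const_mul_atBot hc0

/-- inverse of a fibred map -/
lemma fiber_inverse {Z : ℝ × ℝ → ℝ} (hZ : ContDiff ℝ ∞ Z)
    (hbij : ∀ x, Function.Bijective fun y => Z (x, y)) (hd : ∀ p, D2 Z p ≠ 0) :
    ∃ H : ℝ × ℝ → ℝ, ContDiff ℝ ∞ H ∧ (∀ x y, Z (x, H (x, y)) = y) ∧
      (∀ x y, H (x, Z (x, y)) = y) := by
  choose H0 hH0 using fun x => (hbij x).surjective
  let H : ℝ × ℝ → ℝ := fun p => H0 p.1 p.2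
  have hr : ∀ x y, Z (x, H (x, y)) = y := fun x y => hH0 x y
  have hl : ∀ x y, H (x, Z (x, y)) = y := fun x y => (hbij x).injective (hH0 x _)
  refine ⟨H, ?_, hr, hl⟩
  let F : ℝ × ℝ → ℝ × ℝ := fun p => (p.1, Z p)
  let G : ℝ × ℝ → ℝ × ℝ := fun p => (p.1, H p)
  have hF : ContDiff ℝ ∞ F := contDiff_fst.prodMk hZ
  have hGF : ∀ p, G (F p) = p := by
    rintro ⟨x, y⟩
    change (x, H (x, Z (x, y))) = (x, y)
    rw [hl]
  have hFG : ∀ p, F (G p) = p := by
    rintro ⟨x, y⟩
    change (x, Z (x, H (x, y))) = (x, y)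
    rw [hr]
  have hG : ContDiff ℝ ∞ G := by
    rw [contDiff_iff_contDiffAt]
    intro p
    have hinj : ∀ v, fderiv ℝ F (G p) v = 0 → v = 0 := by
      intro v hv
      have e : HasFDerivAt F ((ContinuousLinearMap.fst ℝ ℝ ℝ).prod (fderiv ℝ Z (G p))) (G p) :=
        hasFDerivAt_fst.prodMk (cdi_diff hZ _).hasFDerivAt
      rw [e.fderiv] at hv
      have h1 : v.1 = 0 := congrArg Prod.fst hv
      have h2 : fderiv ℝ Z (G p) v = 0 := congrArg Prod.snd hv
      rw [fderiv_apply_eq, h1, zero_mul, zero_add] at h2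
      have h3 : v.2 = 0 := (mul_eq_zero.1 h2).resolve_right (hd _)
      exact Prod.ext h1 h3
    have := contDiffAt_leftInverse (a := G p) (n := ∞) (by simp) hF.contDiffAt hinj
      (Eventually.of_forall hGF)
    rwa [hFG] at this
  exact contDiff_snd.comp hG

/-- Hadamard's lemma in one variable -/
lemma hadamard1 {f : ℝ → ℝ} (hf : ContDiff ℝ ∞ f) {a : ℝ} (ha : f a = 0) :
    ∃ g : ℝ → ℝ, ContDiff ℝ ∞ g ∧ ∀ x, f x = (x - a) * g x := by
  have hf' : ContDiff ℝ ∞ (deriv f) := by
    have := (contDiff_infty_iff_deriv.1 hf).2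
    exact this
  refine ⟨fun x => ∫ t in (0 : ℝ)..1, deriv f (a + t * (x - a)), ?_, fun x => ?_⟩
  · exact contDiff_param (f := fun p : ℝ × ℝ => deriv f (a + p.2 * (p.1 - a)))
      (hf'.comp (by fun_prop))
  · have h1 : ∀ t ∈ uIcc (0 : ℝ) 1, HasDerivAt (fun t => f (a + t * (x - a)))
        ((x - a) * deriv f (a + t * (x - a))) t := by
      intro t _
      have h2 : HasDerivAt (fun t : ℝ => a + t * (x - a)) (x - a) t := by
        simpa using ((hasDerivAt_id t).mul_const (x - a)).const_add a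
      have h3 : HasDerivAt f (deriv f (a + t * (x - a))) (a + t * (x - a)) :=
        (hf.differentiable (by simp) _).hasDerivAt
      have := h3.comp t h2
      rw [mul_comm] at this
      exact this
    have hc : Continuous fun t => (x - a) * deriv f (a + t * (x - a)) :=
      continuous_const.mul (hf'.continuous.comp (by fun_prop))
    have h4 := intervalIntegral.integral_eq_sub_of_hasDerivAt h1 (hc.intervalIntegrable _ _)
    rw [intervalIntegral.integral_const_mul] at h4
    rw [h4]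
    simp [ha]

end general

section valley

variable {w : ℝ × ℝ → ℝ} {c₀ : ℝ}

lemma hasDerivAt_D2slice (hw : ContDiff ℝ ∞ w) (x y : ℝ) :
    HasDerivAt (fun y => D2 w (x, y)) (D2 (D2 w) (x, y)) y :=
  hasDerivAt_slice2 (cdi_diff (cdi_D2 hw) _)

lemma D2w_bij (hw : ContDiff ℝ ∞ w) (hc : 0 < c₀) (h22 : ∀ x, c₀ ≤ D2 (D2 w) x) (x : ℝ) :
    Function.Bijective fun y => D2 w (x, y) := by
  have hd := hasDerivAt_D2slice hw x
  have hcont : Continuous fun y => D2 w (x, y) := by
    have := (cdi_D2 hw).continuous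
    exact this.comp (by fun_prop)
  have hmono : Monotone fun y => D2 w (x, y) - c₀ * y := by
    refine monotone_of_deriv_nonneg ?_ ?_
    · intro y
      exact ((hd y).sub ((hasDerivAt_id y).const_mul c₀)).differentiableAt
    · intro y
      have := ((hd y).sub ((hasDerivAt_id y).const_mul c₀)).deriv
      have h2 : deriv (fun y => D2 w (x, y) - c₀ * y) y = D2 (D2 w) (x, y) - c₀ * 1 := this
      rw [h2]
      have := h22 (x, y)
      linarith
  refine bijective_of_growth (y₀ := 0) (c := c₀) ?_ hcont hc ?_ ?_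
  · refine strictMono_of_deriv_pos fun y => ?_
    rw [(hd y).deriv]
    exact hc.trans_le (h22 _)
  · intro y hy
    have := hmono hy
    simp only at this
    linarith
  · intro y hy
    have := hmono hy
    simp only at this
    linarith

lemma exists_valley (hw : ContDiff ℝ ∞ w) (hc : 0 < c₀) (h22 : ∀ x, c₀ ≤ D2 (D2 w) x) :
    ∃ m : ℝ → ℝ, ContDiff ℝ ∞ m ∧ ∀ x, D2 w (x, m x) = 0 := by
  obtain ⟨H, hH, h1, _⟩ := fiber_inverse (cdi_D2 hw) (D2w_bij hw hc h22)
    (fun p => (hc.trans_le (h22 p)).ne')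
  exact ⟨fun x => H (x, 0), hH.comp (by fun_prop), fun x => h1 x 0⟩

/-- the quadratic quotient -/
lemma exists_quad (hw : ContDiff ℝ ∞ w) (h22 : ∀ x, c₀ ≤ D2 (D2 w) x)
    {m : ℝ → ℝ} (hm : ContDiff ℝ ∞ m) (hm0 : ∀ x, D2 w (x, m x) = 0) :
    ∃ g : ℝ × ℝ → ℝ, ContDiff ℝ ∞ g ∧ (∀ p, c₀ / 2 ≤ g p) ∧
      ∀ x y, w (x, y) - w (x, m x) = (y - m x) ^ 2 * g (x, y) := by
  have h22c : ContDiff ℝ ∞ (D2 (D2 w)) := cdi_D2 (cdi_D2 hw)
  have hF : ContDiff ℝ ∞ fun q : (ℝ × ℝ) × ℝ =>
      (1 - q.2) * D2 (D2 w) (q.1.1, m q.1.1 + q.2 * (q.1.2 - m q.1.1)) := by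
    have hm1 : ContDiff ℝ ∞ fun q : (ℝ × ℝ) × ℝ => m q.1.1 := hm.comp (by fun_prop)
    have h1 : ContDiff ℝ ∞ fun q : (ℝ × ℝ) × ℝ =>
        (q.1.1, m q.1.1 + q.2 * (q.1.2 - m q.1.1)) := by fun_prop
    have h2 := h22c.comp h1
    have h3 : ContDiff ℝ ∞ fun q : (ℝ × ℝ) × ℝ => (1 - q.2) := by fun_prop
    exact h3.mul h2
  refine ⟨fun p => ∫ t in (0 : ℝ)..1, (1 - t) * D2 (D2 w) (p.1, m p.1 + t * (p.2 - m p.1)),
    contDiff_param hF, fun p => ?_, fun x y => ?_⟩
  · have hcont : Continuous fun t : ℝ =>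
        (1 - t) * D2 (D2 w) (p.1, m p.1 + t * (p.2 - m p.1)) :=
      hF.continuous.comp (by fun_prop : Continuous fun t : ℝ => (p, t))
    have h1 : ∫ t in (0 : ℝ)..1, (1 - t) * c₀ = c₀ / 2 := by
      rw [intervalIntegral.integral_mul_const, intervalIntegral.integral_sub
        intervalIntegrable_const intervalIntegral.intervalIntegrable_id]
      simp
      ring
    rw [← h1]
    refine intervalIntegral.integral_mono_on zero_le_one ?_ (hcont.intervalIntegrable _ _) ?_
    · exact (by fun_prop : Continuous fun t : ℝ => (1 - t) * c₀).intervalIntegrable _ _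
    · intro t ht
      exact mul_le_mul_of_nonneg_left (h22 _) (by linarith [ht.2])
  · set z := y - m x with hz
    have h1 : ∀ t ∈ uIcc (0 : ℝ) 1, HasDerivAt
        (fun t => w (x, m x + t * z) + (1 - t) * (z * D2 w (x, m x + t * z)))
        (z ^ 2 * ((1 - t) * D2 (D2 w) (x, m x + t * z))) t := by
      intro t _
      have h2 : HasDerivAt (fun t : ℝ => m x + t * z) z t := by
        simpa using ((hasDerivAt_id t).mul_const z).const_add (m x)
      have h3 : HasDerivAt (fun y => w (x, y)) (D2 w (x, m x + t * z)) (m x + t * z) :=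
        hasDerivAt_slice2 (cdi_diff hw _)
      have h4 := h3.comp t h2
      have h5 := (hasDerivAt_D2slice hw x (m x + t * z)).comp t h2
      have h6 : HasDerivAt (fun t : ℝ => 1 - t) (-1) t := by
        simpa using (hasDerivAt_id t).const_sub 1
      have h7 := h4.add (h6.mul (h5.const_mul z))
      refine h7.congr_deriv ?_
      simp only [Function.comp]
      ring
    have hcont : Continuous fun t : ℝ =>
        (1 - t) * D2 (D2 w) (x, m x + t * z) :=
      hF.continuous.comp (by fun_prop : Continuous fun t : ℝ => ((x, y), t))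
    have h8 := intervalIntegral.integral_eq_sub_of_hasDerivAt h1
      ((continuous_const.mul hcont).intervalIntegrable _ _)
    rw [intervalIntegral.integral_const_mul] at h8
    simp only
    rw [h8]
    simp [hm0, hz]

end valley

end AP65
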